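import Pool.Agent.U115.WN.Stm

/-!
# Project WN, package QDA (helper438): many alternating matrices with nonzero determinant
-/

set_option autoImplicit false

open scoped Classical
open Matrix

namespace Pool.Agent.U438.WN

open Pool.Agent.U115.WN

theorem rev_ne {k : ℕ} (hk : Even k) (i : Fin k) : i ≠ i.rev := by
  intro h
  have h1 := congrArg Fin.val h
  rw [Fin.val_rev] at h1
  obtain ⟨m, hm⟩ := hk
  have := i.2
  omega

/-- the number of the elements of a box -/
theorem box_count {ι : Type} [Fintype ι] (W : Set (ι → ℤ)) (q t : ℕ) (lo : ι → ℤ)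
    (h0 : ∀ α, 0 ≤ lo α) (h1 : ∀ α, lo α + t ≤ q)
    (hW : ∀ c : ι → ℤ, (∀ α, lo α ≤ c α ∧ c α ≤ lo α + t) → c ∈ W) :
    ((t : ℝ) + 1) ^ Fintype.card ι ≤ ({c : ι → ℤ | c ∈ W ∧ ∀ α, |c α| ≤ q}.ncard : ℝ) := by
  have hfin : {c : ι → ℤ | c ∈ W ∧ ∀ α, |c α| ≤ q}.Finite := by
    refine (Set.Finite.pi' (ι := ι) (t := fun _ => Set.Icc (-(q : ℤ)) q)
      (fun _ => Set.finite_Icc _ _)).subset ?_
    intro c hc α
    exact abs_le.1 (hc.2 α)
  let g : (ι → Fin (t + 1)) → (ι → ℤ) := fun x α => lo α + ((x α : ℕ) : ℤ)
  have hg : Function.Injective g := by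
    intro x y h
    funext α
    have h2 := congrFun h α
    have h3 : ((x α : ℕ) : ℤ) = ((y α : ℕ) : ℤ) := add_left_cancel h2
    exact Fin.ext (by exact_mod_cast h3)
  have hsub : Set.range g ⊆ {c : ι → ℤ | c ∈ W ∧ ∀ α, |c α| ≤ q} := by
    rintro _ ⟨x, rfl⟩
    have hb : ∀ α, lo α ≤ g x α ∧ g x α ≤ lo α + t := by
      intro α
      have h2 : ((x α : ℕ) : ℤ) ≤ t := by exact_mod_cast Nat.lt_succ_iff.1 (x α).2
      have h3 : (0 : ℤ) ≤ ((x α : ℕ) : ℤ) := Int.natCast_nonneg _
      constructor
      · show lo α ≤ lo α + ((x α : ℕ) : ℤ); linarith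
      · show lo α + ((x α : ℕ) : ℤ) ≤ lo α + t; linarith
    refine ⟨hW _ hb, fun α => ?_⟩
    rw [abs_le]
    have := hb α
    have h4 := h0 α
    have h5 := h1 α
    constructor
    · have : (0 : ℤ) ≤ q := Int.natCast_nonneg _
      linarith [(hb α).1]
    · linarith [(hb α).2]
  have h2 := Set.ncard_le_ncard hsub hfin
  have h3 : (Set.range g).ncard = (t + 1) ^ Fintype.card ι := by
    rw [← Set.image_univ, Set.ncard_image_of_injective _ hg, Set.ncard_univ, Nat.card_eq_fintype_card,
      Fintype.card_fun, Fintype.card_fin]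
  rw [h3] at h2
  exact_mod_cast h2

/-- **QDA** -/
theorem t_QDA : S_QDA := by
  intro k hk2 hk
  refine ⟨(1 / (4 * (k : ℝ))) ^ Fintype.card {p : Fin k × Fin k // p.1 < p.2}, by positivity, ?_⟩
  intro q hq
  have hk0 : (0 : ℝ) < k := by exact_mod_cast (by omega : 0 < k)
  obtain ⟨t, ht⟩ : ∃ t, t = q / (4 * k) := ⟨_, rfl⟩
  have ht1 : 4 * k * t ≤ q := by
    rw [ht]; exact Nat.mul_div_le q (4 * k)
  have ht2 : q < 4 * k * (t + 1) := by
    rw [ht]; exact Nat.lt_mul_div_succ q (by omega)
  have htq : k * t < q := by nlinarith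
  have htq' : t ≤ q := by nlinarith
  -- the box
  let lo : {p : Fin k × Fin k // p.1 < p.2} → ℤ := fun α => if α.1.2 = α.1.1.rev then (q : ℤ) - t else 0
  have hqt : (0 : ℤ) ≤ (q : ℤ) - t := by
    have : (t : ℤ) ≤ q := by exact_mod_cast htq'
    linarith
  have hbox := box_count (ι := {p : Fin k × Fin k // p.1 < p.2})
    {c | (altM c).det ≠ 0} q t lo
    (fun α => by
      show (0 : ℤ) ≤ if α.1.2 = α.1.1.rev then (q : ℤ) - t else 0
      split_ifs
      · exact hqt
      · exact le_rfl)
    (fun α => by
      show (if α.1.2 = α.1.1.rev then (q : ℤ) - t else 0) + t ≤ q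
      split_ifs
      · linarith
      · have : (t : ℤ) ≤ q := by exact_mod_cast htq'
        linarith)
    (by
      intro c hc
      show (altM c).det ≠ 0
      -- the entries
      have hbig : ∀ i : Fin k, (q : ℤ) - t ≤ |altM c i i.rev| := by
        intro i
        have hne := rev_ne hk i
        unfold altM
        rw [Matrix.of_apply]
        rcases lt_or_gt_of_ne hne with h | h
        · rw [dif_pos h]
          have h2 := (hc ⟨(i, i.rev), h⟩).1
          have h3 : lo ⟨(i, i.rev), h⟩ = (q : ℤ) - t := if_pos rfl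
          rw [h3] at h2
          exact h2.trans (le_abs_self _)
        · rw [dif_neg (not_lt.2 h.le), dif_pos h, abs_neg]
          have h2 := (hc ⟨(i.rev, i), h⟩).1
          have h3 : lo ⟨(i.rev, i), h⟩ = (q : ℤ) - t := if_pos (Fin.rev_rev i).symm
          rw [h3] at h2
          exact h2.trans (le_abs_self _)
      have hsmall : ∀ i j : Fin k, j ≠ i.rev → |altM c i j| ≤ t := by
        intro i j hj
        unfold altM
        rw [Matrix.of_apply]
        by_cases h : i < j
        · rw [dif_pos h]
          have h2 := hc ⟨(i, j), h⟩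
          have h3 : lo ⟨(i, j), h⟩ = 0 := if_neg hj
          rw [h3] at h2
          rw [abs_le]
          have h4 : (0 : ℤ) ≤ t := Int.natCast_nonneg _
          constructor
          · linarith [h2.1]
          · linarith [h2.2]
        · rw [dif_neg h]
          by_cases h' : j < i
          · rw [dif_pos h', abs_neg]
            have h2 := hc ⟨(j, i), h'⟩
            have h3 : lo ⟨(j, i), h'⟩ = 0 := if_neg (fun h5 => hj (by
              change i = j.rev at h5
              rw [h5, Fin.rev_rev]))
            rw [h3] at h2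
            rw [abs_le]
            have h4 : (0 : ℤ) ≤ t := Int.natCast_nonneg _
            constructor
            · linarith [h2.1]
            · linarith [h2.2]
          · rw [dif_neg h', abs_zero]
            exact Int.natCast_nonneg _
      -- permutation of the columns
      let M' : Matrix (Fin k) (Fin k) ℤ := (altM c).submatrix id (Fin.revPerm : Equiv.Perm (Fin k))
      have hM' : M'.det = ((Equiv.Perm.sign (Fin.revPerm : Equiv.Perm (Fin k)) : ℤˣ) : ℤ) * (altM c).det :=
        Matrix.det_permute' _ _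
      have hdet : M'.det ≠ 0 := by
        have h1 : (M'.map (Int.cast : ℤ → ℝ)).det ≠ 0 := by
          apply det_ne_zero_of_sum_row_lt_diag
          intro i
          have hd : ‖(M'.map (Int.cast : ℤ → ℝ)) i i‖ = ((|altM c i i.rev| : ℤ) : ℝ) := by
            rw [Matrix.map_apply, Real.norm_eq_abs, ← Int.cast_abs]
            rfl
          have ho : ∀ j ∈ Finset.univ.erase i, ‖(M'.map (Int.cast : ℤ → ℝ)) i j‖ ≤ (t : ℝ) := by
            intro j hj
            have hji : j ≠ i := Finset.ne_of_mem_erase hj
            rw [Matrix.map_apply, Real.norm_eq_abs, ← Int.cast_abs]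
            have h5 : |M' i j| ≤ (t : ℤ) := hsmall i j.rev (fun h6 => hji (Fin.rev_injective h6))
            exact_mod_cast h5
          refine lt_of_le_of_lt (Finset.sum_le_sum ho) ?_
          rw [Finset.sum_const, Finset.card_erase_of_mem (Finset.mem_univ i), Finset.card_univ,
            Fintype.card_fin, nsmul_eq_mul, hd]
          have h6 : ((q : ℝ) - t) ≤ ((|altM c i i.rev| : ℤ) : ℝ) := by exact_mod_cast hbig i
          refine lt_of_lt_of_le ?_ h6
          have h7 : ((k : ℝ) * t) < q := by exact_mod_cast htq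
          have h8 : (((k - 1 : ℕ) : ℝ)) = k - 1 := by
            rw [Nat.cast_sub (by omega)]; simp
          rw [h8]
          linarith
        intro h2
        apply h1
        have h3 := (Int.castRingHom ℝ).map_det M'
        rw [h2, map_zero] at h3
        exact h3.symm
      intro h0
      apply hdet
      rw [hM', h0, mul_zero])
  refine le_trans ?_ hbox
  rw [← mul_pow]
  apply pow_le_pow_left₀ (by positivity)
  rw [one_div, inv_mul_le_iff₀ (by positivity)]
  have : (q : ℝ) < 4 * k * (t + 1) := by exact_mod_cast ht2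
  linarith

end Pool.Agent.U438.WN
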